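import Pool.Agent.K4H87.BS.Inst
import Pool.Agent.K4H87.BS.Tie
set_option autoImplicit false

/-!
# The shadow vertex rule with a random start on linear programs with bounded subdeterminants

Linear programs `max c x`, `A x ≤ b`, `x ≥ 0` with `m` rows and `n` variables, where `A` is an
integral matrix all of whose subdeterminants have absolute value at most `Δ` (for `Δ = 1`: totally
unimodular matrices, for example network matrices), and `b`, `c` are arbitrary real vectors.
Degenerate and unbounded programs are included.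

The rule. At the given vertex `v` take any basis of tight constraints, with rows `a_1, …, a_n`,
choose `l_1, …, l_n` at random, independently and uniformly in `[1, 2]`, and put
`d = l_1 a_1 + … + l_n a_n`, so that `v` is the only vertex maximising `d x`. Then follow the
vertices which maximise `(d + t c) x` for increasing `t` (the parametric rule of Gass and Saaty);
each step goes along an edge on which `c x` increases.

Result. With
`K = 192 n ^ 5 Δ ^ 2 (log₂ (n Δ) + 1)`,
the probability that the rule needs more than `T` steps is at most `K / (T + 1)`, for every `T`; the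
bound does not depend on the number of rows, on `b` and on `c`. In particular, from every vertex there is a path of at
most `K` improving edges to an optimal vertex, or to a vertex with an unbounded improving edge: the
monotone diameter of the polyhedra `A x ≤ b`, `x ≥ 0` is at most `K` for every right-hand side and
every objective function.

Proof. If the optimal vertex changes between `t` and `t + ε` then `d + t c` is close to the
boundary of the normal cone of this vertex: for some tight row `a_j` the vector `d + t c - δ a_j` is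
outside, with `δ` proportional to `ε`, and `n` rows `a_j` are enough for each vertex. The set of
these `d` has many disjoint translates in direction `a_j` in the same normal cone, so small volume.
The sum over a fine subdivision of the time axis bounds the expected number
of changes by a logarithm of the quotient of the largest and the smallest critical time. To get rid
of `c`, the edge directions are scaled to integral vectors and are divided into `n` levels: the
level of `e` is the dimension of the span of all directions `f` with `|c f| ≤ c e`. By Cramer's rule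
the values `c e` on one level differ at most by a factor `n n! Δ ^ n`.
-/

namespace Pool.Agent.Results.MP_4d246d_lc.BoundedSubdeterminants

open MeasureTheory

/-- the polyhedron `A x ≤ b`, `x ≥ 0` -/
def polyhedron {m n : ℕ} (A : Fin m → Fin n → ℤ) (b : Fin m → ℝ) : Set (Fin n → ℝ) :=
  {x | (∀ i, ∑ j, (A i j : ℝ) * x j ≤ b i) ∧ ∀ j, 0 ≤ x j}

/-- the objective function `c x` -/
def val {n : ℕ} (c x : Fin n → ℝ) : ℝ := ∑ j, c j * x j

/-- `v` is the only point of `P` at which the objective function `p` is maximal -/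
def UniqueMax {n : ℕ} (P : Set (Fin n → ℝ)) (p v : Fin n → ℝ) : Prop :=
  v ∈ P ∧ ∀ x ∈ P, x ≠ v → val p x < val p v

/-- `x` and `y` are joined by an edge of `P` on which the objective function increases -/
def ImprovingEdge {n : ℕ} (P : Set (Fin n → ℝ)) (c x y : Fin n → ℝ) : Prop :=
  IsExposed ℝ P (segment ℝ x y) ∧ val c x < val c y

/-- `P` has an unbounded edge at `x`, in the direction `d`, on which the objective function
increases -/
def UnboundedEdge {n : ℕ} (P : Set (Fin n → ℝ)) (c x d : Fin n → ℝ) : Prop :=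
  IsExposed ℝ P {z | ∃ t : ℝ, 0 ≤ t ∧ z = x + t • d} ∧ 0 < val c d

/-- the row vectors of the constraints `A x ≤ b`, `-x ≤ 0` -/
def row {m n : ℕ} (A : Fin m → Fin n → ℤ) : Fin m ⊕ Fin n → Fin n → ℝ
  | Sum.inl i => fun j => (A i j : ℝ)
  | Sum.inr i => fun j => if j = i then -1 else 0

/-- the right-hand sides of the constraints `A x ≤ b`, `-x ≤ 0` -/
def rhs {m n : ℕ} (b : Fin m → ℝ) : Fin m ⊕ Fin n → ℝ := Sum.elim b fun _ => 0

/-- `B` is a basis of constraints which are tight at `v` -/
def IsBasis {m n : ℕ} (A : Fin m → Fin n → ℤ) (b : Fin m → ℝ) (v : Fin n → ℝ)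
    (B : Fin n → Fin m ⊕ Fin n) : Prop :=
  (∀ p, val (row A (B p)) v = rhs b (B p)) ∧ LinearIndependent ℝ fun p => row A (B p)

/-- the auxiliary objective `l_1 a_1 + … + l_n a_n` -/
def aux {m n : ℕ} (A : Fin m → Fin n → ℤ) (B : Fin n → Fin m ⊕ Fin n) (l : Fin n → ℝ) :
    Fin n → ℝ := ∑ p, l p • row A (B p)

/-- The vertices `x 0, …, x N` of `P` are a path of improving edges starting at `v`, which ends at
an optimal vertex or at a vertex with an unbounded improving edge. -/
def IsPath {n : ℕ} (P : Set (Fin n → ℝ)) (c v : Fin n → ℝ) (N : ℕ) (x : ℕ → Fin n → ℝ) : Prop :=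
  x 0 = v ∧ (∀ k ≤ N, x k ∈ P.extremePoints ℝ) ∧ (∀ k < N, ImprovingEdge P c (x k) (x (k + 1))) ∧
    ((∀ y ∈ P, val c y ≤ val c (x N)) ∨ ∃ e, UnboundedEdge P c (x N) e)

/-- The rule of Gass and Saaty with auxiliary objective `d` makes `N` steps from `v`: there is a
path of improving edges with `N` steps, whose vertices `x k` are the unique maximisers of
`d + t_k c` for parameters `0 = t_0 < t_1 < …`; for all parameters between `t_k` and `t_{k + 1}`
the vertex `x k` or the vertex `x (k + 1)` is optimal, so that no shadow vertex is skipped. -/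
def ShadowPath {n : ℕ} (P : Set (Fin n → ℝ)) (d c v : Fin n → ℝ) (N : ℕ) : Prop :=
  ∃ (x : ℕ → Fin n → ℝ) (t : ℕ → ℝ), IsPath P c v N x ∧ t 0 = 0 ∧
    (∀ k ≤ N, UniqueMax P (d + t k • c) (x k)) ∧
    ∀ k < N, t k < t (k + 1) ∧ ∀ s, t k ≤ s → s ≤ t (k + 1) →
      (∀ y ∈ P, val (d + s • c) y ≤ val (d + s • c) (x k)) ∨
      ∀ y ∈ P, val (d + s • c) y ≤ val (d + s • c) (x (k + 1))

open Pool.Agent.K4H92.LP Pool.Agent.K4H87.BS in
/-- **The shadow vertex rule with a random start is strongly polynomial on linear programs with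
bounded subdeterminants.** -/
theorem result (m n Δ : ℕ) (A : Fin m → Fin n → ℤ)
    (hA : ∀ (k : ℕ) (r : Fin k → Fin m) (s : Fin k → Fin n),
      |(Matrix.of fun p q => A (r p) (s q)).det| ≤ Δ)
    (b : Fin m → ℝ) (c v : Fin n → ℝ) (hv : v ∈ (polyhedron A b).extremePoints ℝ) :
    (∃ B, IsBasis A b v B) ∧
    (∀ B, IsBasis A b v B → ∀ T : ℕ,
      volume {l : Fin n → ℝ | (∀ i, 1 ≤ l i ∧ l i ≤ 2) ∧
        ¬ ∃ N ≤ T, ShadowPath (polyhedron A b) (aux A B l) c v N} ≤
      ((192 * n ^ 5 * Δ ^ 2 * (Nat.log 2 (n * Δ) + 1) : ℕ) : ENNReal) / (T + 1 : ℕ)) ∧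
    ∃ N ≤ 192 * n ^ 5 * Δ ^ 2 * (Nat.log 2 (n * Δ) + 1),
      ∃ x, IsPath (polyhedron A b) c v N x := by
  classical
  have hSD : SubDet A Δ := hA
  have hΔ := hSD.one_le
  have hP : polyhedron A b = PP (rows (reM A)) (K4H92.LP.rhs b) := by
    ext x
    exact mem_PP.symm
  have hval : ∀ c x : Fin n → ℝ, val c x = lf c x := fun c x => (lf_apply c x).symm
  have hrow : ∀ i x, val (row A i) x = rows (reM A) i x := by
    intro i x
    rcases i with i | j
    · rw [rows_inl]; rfl
    · rw [rows_inr]; simp [val, row]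
  have hvv : Vert (rows (reM A)) (K4H92.LP.rhs b) v := by
    rw [hP] at hv
    exact Vert.of_extreme hv
  have hlin : ∀ B : Fin n → Fin m ⊕ Fin n, LinearIndependent ℝ (fun p => row A (B p)) ↔ Ind A B := by
    intro B
    have h1 : (fun p => row A (B p)) = (Matrix.of fun p q => row A (B p) q).row := rfl
    rw [h1, Matrix.linearIndependent_rows_iff_isUnit, ← Matrix.mulVec_injective_iff_isUnit]
    have h2 : ∀ (g : Fin n → ℝ) p, ((Matrix.of fun p q => row A (B p) q).mulVec g) p =
        rows (reM A) (B p) g := fun g p => by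
      rw [← hrow]; rfl
    constructor
    · intro h g hg
      apply h
      funext p
      rw [h2, hg, Matrix.mulVec_zero]
      rfl
    · intro h g g' hgg
      have h3 : g - g' = 0 := by
        apply h
        intro p
        rw [map_sub, ← h2, ← h2, hgg, sub_self]
      exact sub_eq_zero.1 h3
  -- conversion of the paths
  have hconv : ∀ (B : Fin n → Fin m ⊕ Fin n) (l : Fin n → ℝ) (N : ℕ),
      TPath (rows (reM A)) (K4H92.LP.rhs b) (lf c) B l v N →
      ShadowPath (polyhedron A b) (aux A B l) c v N := by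
    rintro B l N ⟨x, t, h1, h2, h3, h4, h5⟩
    have hd : ∀ e, val (aux A B l) e = dl (rows (reM A)) B l e := by
      intro e
      rw [dl_apply]
      simp only [← hrow, val, aux, Finset.sum_apply, Pi.smul_apply, smul_eq_mul, Finset.sum_mul,
        Finset.mul_sum]
      rw [Finset.sum_comm]
      refine Finset.sum_congr rfl fun p _ => Finset.sum_congr rfl fun q _ => by ring
    have hdt : ∀ (t : ℝ) e, val (aux A B l + t • c) e =
        (dl (rows (reM A)) B l + t • lf c) e := by
      intro t e
      rw [LinearMap.add_apply, LinearMap.smul_apply, ← hd, ← hval]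
      simp only [val, Pi.add_apply, Pi.smul_apply, smul_eq_mul, add_mul, Finset.sum_add_distrib,
        Finset.mul_sum, mul_assoc]
    rw [hP]
    refine ⟨x, t, ⟨h1, fun k hk => (h3 k hk).2.1.extreme, fun k hk => ?_, ?_⟩, h2,
      fun k hk => ?_, fun k hk => ?_⟩
    · refine ⟨(h4 k hk).1.exposed, ?_⟩
      rw [hval, hval]
      exact (h4 k hk).1.lt
    · have hN := (h3 N le_rfl).2.1
      rcases h5 with g | ⟨e, he, hce, g⟩
      · left
        intro y hy
        rw [hval, hval]
        exact vert_le hN g hy
      · right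
        refine ⟨e, ray_exposed' hN he g, ?_⟩
        rw [hval]
        exact hce
    · obtain ⟨g0, g1, g2⟩ := h3 k hk
      refine ⟨g1.1, fun y hy hne => ?_⟩
      rw [hdt, hdt]
      exact vert_lt g1 (fun e he => by simpa using g2 e he) hy hne
    · -- no shadow vertex is skipped
      obtain ⟨-, s₀, hs1, hs2, hmax, htie⟩ := h4 k hk
      have hend : ∀ j ≤ N, ∀ y ∈ PP (rows (reM A)) (K4H92.LP.rhs b),
          dl (rows (reM A)) B l y + t j * lf c y ≤
            dl (rows (reM A)) B l (x j) + t j * lf c (x j) := by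
        intro j hj y hy
        obtain ⟨-, g1, g2⟩ := h3 j hj
        have h6 := vert_le (f := dl (rows (reM A)) B l + t j • lf c) g1
          (fun e he => by simpa using (g2 e he).le) hy
        simpa using h6
      refine ⟨hs1.trans hs2, fun s hs hs' => ?_⟩
      rcases le_total s s₀ with h6 | h6
      · left
        intro y hy
        rw [hdt, hdt]
        have h7 := hend k hk.le y hy
        have h8 := hmax y hy
        simp only [LinearMap.add_apply, LinearMap.smul_apply, smul_eq_mul]
        rcases le_total (lf c y) (lf c (x k)) with h9 | h9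
        · nlinarith [mul_nonneg (sub_nonneg.2 hs) (sub_nonneg.2 h9)]
        · nlinarith [mul_nonneg (sub_nonneg.2 h6) (sub_nonneg.2 h9)]
      · right
        intro y hy
        rw [hdt, hdt]
        have h7 := hend (k + 1) hk y hy
        have h8 := hmax y hy
        rw [← htie] at h8
        simp only [LinearMap.add_apply, LinearMap.smul_apply, smul_eq_mul]
        rcases le_total (lf c y) (lf c (x (k + 1))) with h9 | h9
        · nlinarith [mul_nonneg (sub_nonneg.2 h6) (sub_nonneg.2 h9)]
        · nlinarith [mul_nonneg (sub_nonneg.2 hs') (sub_nonneg.2 h9)]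
  have hbasis : ∃ B, IsBasis A b v B := by
    obtain ⟨B, hB1, hB2, -⟩ := pick (A := A)
      (T := {i | i ∈ tight (rows (reM A)) (K4H92.LP.rhs b) v}) (fun g hg => hvv.2 g hg)
    refine ⟨B, fun p => ?_, (hlin B).2 hB2⟩
    rw [hrow]
    exact mem_tight.1 (hB1 p)
  have hmain : ∀ B, IsBasis A b v B → ∀ T : ℕ,
      volume {l : Fin n → ℝ | (∀ i, 1 ≤ l i ∧ l i ≤ 2) ∧
        ¬ ∃ N ≤ T, ShadowPath (polyhedron A b) (aux A B l) c v N} ≤
      ((192 * n ^ 5 * Δ ^ 2 * (Nat.log 2 (n * Δ) + 1) : ℕ) : ENNReal) / (T + 1 : ℕ) := by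
    intro B hB T
    have hInd : Ind A B := (hlin B).1 hB.2
    have htight : ∀ i, B i ∈ tight (rows (reM A)) (K4H92.LP.rhs b) v := fun i => by
      rw [mem_tight, ← hrow]
      exact hB.1 i
    have hsub : {l : Fin n → ℝ | (∀ i, 1 ≤ l i ∧ l i ≤ 2) ∧
        ¬ ∃ N ≤ T, ShadowPath (polyhedron A b) (aux A B l) c v N} ⊆
        {l | l ∈ cube n ∧ ¬ ∃ N ≤ T, TPath (rows (reM A)) (K4H92.LP.rhs b) (lf c) B l v N} := by
      rintro l ⟨hl, hn⟩
      refine ⟨mem_cube.2 hl, ?_⟩
      rintro ⟨N, hN, h⟩
      exact hn ⟨N, hN, hconv B l N h⟩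
    rcases Nat.eq_zero_or_pos n with hn | hn
    · -- no variables
      subst hn
      have hempty : {l : Fin 0 → ℝ | (∀ i, 1 ≤ l i ∧ l i ≤ 2) ∧
          ¬ ∃ N ≤ T, ShadowPath (polyhedron A b) (aux A B l) c v N} = ∅ := by
        ext l
        simp only [Set.mem_setOf_eq, Set.mem_empty_iff_false, iff_false, not_and, not_not]
        intro _
        refine ⟨0, Nat.zero_le _, fun _ => v, fun _ => 0, ⟨rfl, fun k _ => hv, fun k hk => ?_,
          Or.inl fun y _ => ?_⟩, rfl, fun k _ => ⟨hv.1, fun x _ hne => ?_⟩, fun k hk => ?_⟩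
        · omega
        · rw [Subsingleton.elim y v]
        · exact absurd (Subsingleton.elim x v) hne
        · omega
      rw [hempty]
      simp
    · have h1 := (dat hSD hn (lf c) hInd).main_tie (arith hn hΔ) T hvv htight hInd
      refine (measure_mono hsub).trans (h1.trans ?_)
      gcongr
      rw [← ENNReal.ofReal_natCast]
      apply ENNReal.ofReal_le_ofReal
      set g := Nat.log 2 (n * Δ) + 1 with hg
      have hg1 : 1 ≤ g := by omega
      have h2 : g * (n + 2) + 1 ≤ 4 * n * g := by
        nlinarith [Nat.mul_le_mul hn hg1]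
      have h3 : 1 + 2 * n * Δ * (g * (n + 2) + 1) ≤ 12 * (n ^ 2 * Δ * g) := by
        have h4 : 1 ≤ n ^ 2 * Δ * g := Nat.one_le_iff_ne_zero.2 (by positivity)
        calc 1 + 2 * n * Δ * (g * (n + 2) + 1) ≤ 1 + 2 * n * Δ * (4 * n * g) := by gcongr
          _ = 1 + 8 * (n ^ 2 * Δ * g) := by ring
          _ ≤ 12 * (n ^ 2 * Δ * g) := by omega
      have h5 : 16 * (n ^ 3 * Δ * (1 + 2 * n * Δ * (g * (n + 2) + 1))) ≤
          192 * n ^ 5 * Δ ^ 2 * g := by
        calc 16 * (n ^ 3 * Δ * (1 + 2 * n * Δ * (g * (n + 2) + 1)))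
            ≤ 16 * (n ^ 3 * Δ * (12 * (n ^ 2 * Δ * g))) := by gcongr
          _ = 192 * n ^ 5 * Δ ^ 2 * g := by ring
      exact_mod_cast h5
  refine ⟨hbasis, hmain, ?_⟩
  obtain ⟨B, hB⟩ := hbasis
  set K := 192 * n ^ 5 * Δ ^ 2 * (Nat.log 2 (n * Δ) + 1) with hK
  have h1 := hmain B hB K
  have h2 : ((K : ℕ) : ENNReal) / (K + 1 : ℕ) < 1 := by
    rw [ENNReal.div_lt_iff (Or.inl (by simp)) (Or.inl (by simp)), one_mul]
    exact_mod_cast Nat.lt_succ_self K
  by_contra hcon
  have h3 : cube n ⊆ {l : Fin n → ℝ | (∀ i, 1 ≤ l i ∧ l i ≤ 2) ∧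
        ¬ ∃ N ≤ K, ShadowPath (polyhedron A b) (aux A B l) c v N} := by
    intro l hl
    refine ⟨mem_cube.1 hl, ?_⟩
    rintro ⟨N, hN, x, t, hx, -⟩
    exact hcon ⟨N, hN, x, hx⟩
  have h4 := measure_mono (μ := volume) h3
  rw [vol_cube] at h4
  exact absurd (h4.trans_lt (h1.trans_lt h2)) (lt_irrefl _)

end Pool.Agent.Results.MP_4d246d_lc.BoundedSubdeterminants
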