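import Pool.Agent.K4H92.NO.Final
import Pool.Agent.K4H92.NO.Rule
import Pool.Agent.K4H92.NO.Assemble
set_option autoImplicit false

/-!
# A deterministic pivot rule which sees no numbers at all

Linear programs `max c x`, `A x ≤ b`, `x ≥ 0` with `m` rows, `n` variables and arbitrary real data
(degenerate and unbounded programs included). All the data `A`, `b`, `c` are hidden.
A rule walks on the vertices of the polyhedron. At a vertex it is told only names: which constraints are
tight there, and for each improving edge (bounded or not) which constraints are tight on the whole edge. It
is told no coefficients, coordinates, slopes, lengths, costs or other numbers, and nothing about vertices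
which it has not visited. It remembers what it was told on its way and answers with the name of the edge to
follow.

Result. For all `m`, `n` there is ONE deterministic rule of this kind which on EVERY real linear program
with `m` rows and `n` variables, from every vertex, makes at most
`(4 (m + n + 1)) ^ (3 ⌊log₂ (m + n)⌋ + 11)` pivots, all of them improving, and ends at an optimal vertex or
names an unbounded improving edge. So for real linear programs quasi-polynomially many pivots are enough
with purely combinatorial information. With abstract objective functions on the `n`-cube in place of linear
programs, the same information (and the objective values) do not suffice: every deterministic rule makes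
`2 ^ k` steps for `n > k (k + 1) (3 k + 28)` (starting result `AllDeterministicRules`), although paths of
`n` improving steps exist.

Proof.
(1) There are at most `2 ^ ((m + n + 3) ^ 4)` combinatorial types of linear programs (what the rule is told
depends only on the signs of the minors of `(A, b, c)`; Warren's bound), so the rule plays against a finite
family `Y` of programs which look the same so far.
(2) A majority form of the argument of Kalai and Kleitman (`majority`): for a finite family `Y` of programs
which look the same there is a path of quasi-polynomial length whose views are predictable, each step being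
right for all but a proportion `η` of `Y`, and which leads to an end or to a move after which a further
proportion `η` of `Y` is excluded whatever the rule is told. The rows which are met by short predictable
paths are at least half of the rows met above the vertex, or all the other rows can be forgotten, for all
members at the same time; the recursion goes to the best vertices of their faces by predictable paths. Which
of these vertices is best depends on the member and cannot be seen, but one of them is best for a proportion
`1 / (m + n)` of the members, and the rest of the path is chosen for them only. The excluded members are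
counted absolutely, not relatively, so they add up along the path and only this restriction, which happens
`log₂ (m + n) + 1` times, costs a factor.
(3) So the family shrinks by a factor `1 - η` after quasi-polynomially many pivots, `η⁻¹` being
quasi-polynomial.
-/

namespace Pool.Agent.Results.MP_4d246d_lc.NamesOnly

open Finset

/-- the polyhedron `A x ≤ b`, `x ≥ 0` -/
def polyhedron {m n : ℕ} (A : Fin m → Fin n → ℝ) (b : Fin m → ℝ) : Set (Fin n → ℝ) :=
  {x | (∀ i, ∑ j, A i j * x j ≤ b i) ∧ ∀ j, 0 ≤ x j}

/-- the objective function `c x` -/
def val {n : ℕ} (c x : Fin n → ℝ) : ℝ := ∑ j, c j * x j

/-- `x` and `y` are joined by an edge of `P` on which the objective function increases -/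
def ImprovingEdge {n : ℕ} (P : Set (Fin n → ℝ)) (c x y : Fin n → ℝ) : Prop :=
  IsExposed ℝ P (segment ℝ x y) ∧ val c x < val c y

/-- `P` has an unbounded edge at `x`, in the direction `d`, on which the objective function
increases -/
def UnboundedEdge {n : ℕ} (P : Set (Fin n → ℝ)) (c x d : Fin n → ℝ) : Prop :=
  IsExposed ℝ P {z | ∃ t : ℝ, 0 ≤ t ∧ z = x + t • d} ∧ 0 < val c d

/-- the names of the constraints: `inl i` for the row `i` of `A x ≤ b`, and `inr j` for `x j ≥ 0` -/
abbrev Name (m n : ℕ) : Type := Fin m ⊕ Fin n

open Classical in
/-- the names of the constraints which hold with equality at `x` -/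
noncomputable def tightAt {m n : ℕ} (A : Fin m → Fin n → ℝ) (b : Fin m → ℝ) (x : Fin n → ℝ) :
    Finset (Name m n) :=
  univ.filter (Sum.elim (fun i => ∑ j, A i j * x j = b i) fun j => x j = 0)

/-- what is told at the vertex `x`: the names of the tight constraints, and the names of the improving
edges. The name of an edge is the set of the constraints which are tight on the whole edge. -/
noncomputable def view {m n : ℕ} (A : Fin m → Fin n → ℝ) (b : Fin m → ℝ) (c x : Fin n → ℝ) :
    Finset (Name m n) × Set (Finset (Name m n)) :=
  (tightAt A b x, {Z | (∃ y, ImprovingEdge (polyhedron A b) c x y ∧
    Z = tightAt A b x ∩ tightAt A b y) ∨ ∃ d, UnboundedEdge (polyhedron A b) c x d ∧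
      Z = tightAt A b x ∩ tightAt A b (x + d)})

/-- everything told at `x 0, …, x k` -/
noncomputable def history {m n : ℕ} (A : Fin m → Fin n → ℝ) (b : Fin m → ℝ) (c : Fin n → ℝ)
    (x : ℕ → Fin n → ℝ) (k : ℕ) : List (Finset (Name m n) × Set (Finset (Name m n))) :=
  (List.range (k + 1)).map fun j => view A b c (x j)

/-- **One deterministic pivot rule which sees no numbers makes quasi-polynomially many pivots on every
real linear program with `m` rows and `n` variables.** For all `A`, `b`, `c` and every vertex `v`, the
rule `ρ` walks from `x 0 = v` through vertices `x 0, …, x N` along improving edges; it is told only the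
names in `history`, and answers with the name of the edge to follow. At the end `x N` is optimal, or the
rule names an unbounded improving edge. -/
theorem result (m n : ℕ) :
    ∃ ρ : List (Finset (Name m n) × Set (Finset (Name m n))) → Finset (Name m n),
      ∀ (A : Fin m → Fin n → ℝ) (b : Fin m → ℝ) (c : Fin n → ℝ),
        ∀ v ∈ (polyhedron A b).extremePoints ℝ,
          ∃ N ≤ (4 * (m + n + 1)) ^ (3 * Nat.log 2 (m + n) + 11), ∃ x : ℕ → Fin n → ℝ, x 0 = v ∧
            (∀ k ≤ N, x k ∈ (polyhedron A b).extremePoints ℝ) ∧
            (∀ k < N, ImprovingEdge (polyhedron A b) c (x k) (x (k + 1)) ∧
              tightAt A b (x k) ∩ tightAt A b (x (k + 1)) = ρ (history A b c x k)) ∧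
            ((∀ y ∈ polyhedron A b, val c y ≤ val c (x N)) ∨
              ∃ d, UnboundedEdge (polyhedron A b) c (x N) d ∧
                tightAt A b (x N) ∩ tightAt A b (x N + d) = ρ (history A b c x N)) := by
  obtain ⟨R, hR, hS⟩ := K4H92.NO.sol_all m n
  obtain ⟨ρ, hρ⟩ := K4H92.NO.rule_of_sol m n _ R hR hS
  refine ⟨ρ, fun A b c v hv => ?_⟩
  obtain ⟨N, hN, x, ⟨h0, h1, h2, _⟩, h3, h4⟩ := K4H92.NO.works_of_worksFor hρ A b c v hv
  exact ⟨N, hN.trans (K4H92.NO.bound_le m n), x, h0, h1, fun k hk => ⟨h2 k hk, h3 k hk⟩, h4⟩

end Pool.Agent.Results.MP_4d246d_lc.NamesOnly
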