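import Pool.Agent.K4H94.SX.Final
import Pool.Agent.TH70.AR.Run
set_option autoImplicit false

/-!
# Randomised pivot rules with unlimited memory on abstract cubes

`flip x i` is the neighbour of the vertex `x` of the `n`-cube in direction `i`, and `improving f x` the
set of directions `i` with `f x < f (flip x i)`. A randomised pivot rule sees the list of triples (visited
vertex, its objective value, its set of improving directions), the current one first, and chooses one of
the improving directions at random; `p l i` is the probability of the direction `i` when `l` is seen. These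
probabilities may depend on all that was seen in any way. `prob f p T x l` is the probability of at least
`T` further steps from `x` when `l` was seen before.

The theorem is about the two natural ways to forbid that such a rule is deterministic:

* the probabilities of two improving directions differ at most by the factor `β` (`β = 1`: Random-Edge),
* every improving direction has a probability of at least `1 / (β n)` (any rule whatever, mixed with
  Random-Edge).

In the first case `4608 β k²`, in the second case `9216 β k³` dimensions are enough for `2 ^ k` steps.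

Proof. `L = k + 1` groups of `64 q` directions are added one after the other, each of which doubles the
number of steps. Let a hard distribution of objective functions on the `m`-cube be given. Vertices of the
larger cube are pairs `(v, x)` with `x` in the `64 q`-cube of the new group `G`. A hidden random point `s` of
the `64 q`-cube has an absorbing ball: at Hamming distance at most `q` from `s`, all directions of `G` lead
to `s` and the first hard function is replaced by an independent second one. Outside of the ball the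
directions of `G` lead to a fresh random point `r v`, which depends on `v` only (except near the points
which agree with `s` in few places, from where they lead to `s`), and the orientation of `v` is that of the
first function. A rule which may not prefer the few useful directions of `G` to the many improving ones is
driven by each new `r v` away from whatever it has learnt: it cannot enter the ball before it has finished
the first function, and the second one is then new to it. The bound for the probability of a failure uses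
only the total probabilities of sets of directions (`hr` in `rules_slow`).
-/

namespace Pool.Agent.Results.MP_4d246d_lc.RandomisedRulesWithMemory

open Finset

/-- the neighbour of the vertex `x` in direction `i` -/
def flip {n : ℕ} (x : Fin n → Bool) (i : Fin n) : Fin n → Bool := Function.update x i (!x i)

/-- the improving directions at the vertex `x` -/
def improving {n : ℕ} (f : (Fin n → Bool) → ℕ) (x : Fin n → Bool) : Finset (Fin n) :=
  univ.filter fun i => f x < f (flip x i)

/-- `prob f p T x l` is the probability that the rule `p` makes at least `T` further steps from the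
vertex `x` when it has seen `l` before: it sees `(x, f x, improving f x)` and moves to `flip x i` with
probability `p ((x, f x, improving f x) :: l) i`, and it stops if there is no improving direction. -/
noncomputable def prob {n : ℕ} (f : (Fin n → Bool) → ℕ)
    (p : List ((Fin n → Bool) × ℕ × Finset (Fin n)) → Fin n → ℝ) :
    ℕ → (Fin n → Bool) → List ((Fin n → Bool) × ℕ × Finset (Fin n)) → ℝ
  | 0, _, _ => 1
  | T + 1, x, l => ∑ i ∈ improving f x, p ((x, f x, improving f x) :: l) i *
      prob f p T (flip x i) ((x, f x, improving f x) :: l)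

theorem prob_eq {n : ℕ} (f : (Fin n → Bool) → ℕ)
    (p : List ((Fin n → Bool) × ℕ × Finset (Fin n)) → Fin n → ℝ) (T : ℕ) (x : Fin n → Bool)
    (l : List ((Fin n → Bool) × ℕ × Finset (Fin n))) :
    prob f p T x l = K4H94.SX.prob f p T x l := by
  induction T generalizing x l with
  | zero => rw [prob, K4H94.SX.prob]
  | succ T ih =>
    rw [prob, K4H94.SX.prob]
    refine sum_congr rfl fun i _ => ?_
    rw [ih]
    rfl

/-- the ratio condition for comparable probabilities -/
theorem ratio_cmp {n : ℕ} (w : Fin n → ℝ) (S X Y : Finset (Fin n)) (q β : ℕ)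
    (hw : ∀ i ∈ S, ∀ j ∈ S, w i ≤ β * w j) (hX : X ⊆ S) (hY : Y ⊆ S) (hXc : X.card ≤ 64 * q)
    (hYc : q < Y.card) (h0 : ∀ i, 0 ≤ w i) :
    ∑ i ∈ X, w i ≤ ((64 * β : ℕ) : ℝ) * ∑ i ∈ Y, w i := by
  have hYpos : (0 : ℝ) < Y.card := by
    exact_mod_cast lt_of_le_of_lt (Nat.zero_le q) hYc
  have hYs : 0 ≤ ∑ i ∈ Y, w i := sum_nonneg fun i _ => h0 i
  have h1 : ∀ i ∈ X, (Y.card : ℝ) * w i ≤ β * ∑ j ∈ Y, w j := by
    intro i hi
    rw [mul_sum, ← nsmul_eq_mul, ← sum_const]
    exact sum_le_sum fun j hj => hw i (hX hi) j (hY hj)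
  have h2 : (Y.card : ℝ) * ∑ i ∈ X, w i ≤ X.card * (β * ∑ j ∈ Y, w j) := by
    rw [mul_sum, ← nsmul_eq_mul (X.card), ← sum_const]
    exact sum_le_sum h1
  have h3 : (X.card : ℝ) ≤ 64 * Y.card := by
    have : X.card ≤ 64 * Y.card := by omega
    exact_mod_cast this
  have h4 : (X.card : ℝ) * (β * ∑ j ∈ Y, w j) ≤ 64 * Y.card * (β * ∑ j ∈ Y, w j) :=
    mul_le_mul_of_nonneg_right h3 (by positivity)
  have h5 : (Y.card : ℝ) * ∑ i ∈ X, w i ≤ Y.card * (64 * β * ∑ j ∈ Y, w j) := by
    calc _ ≤ _ := h2
      _ ≤ _ := h4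
      _ = _ := by ring
  have h6 := le_of_mul_le_mul_left h5 hYpos
  push_cast
  exact h6

/-- the ratio condition for probabilities bounded from below -/
theorem ratio_min {n : ℕ} (w : Fin n → ℝ) (S X Y : Finset (Fin n)) (q β L : ℕ)
    (hw : ∀ i ∈ S, 1 ≤ β * n * w i) (hX : X ⊆ S) (hY : Y ⊆ S)
    (hYc : q < Y.card) (h0 : ∀ i, 0 ≤ w i) (h1 : ∑ i ∈ S, w i = 1)
    (hq : n ≤ 64 * L * (q + 1)) :
    ∑ i ∈ X, w i ≤ ((64 * L * β : ℕ) : ℝ) * ∑ i ∈ Y, w i := by
  have hXs : ∑ i ∈ X, w i ≤ 1 := by
    rw [← h1]; exact sum_le_sum_of_subset_of_nonneg hX fun i _ _ => h0 i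
  have hn : 0 < n := by
    obtain ⟨i, -⟩ := card_pos.1 (lt_of_le_of_lt (Nat.zero_le q) hYc)
    exact i.pos
  have h2 : (Y.card : ℝ) ≤ β * n * ∑ i ∈ Y, w i := by
    rw [mul_sum, card_eq_sum_ones, Nat.cast_sum]
    exact sum_le_sum fun i hi => by simpa using hw i (hY hi)
  have h3 : (n : ℝ) ≤ 64 * L * Y.card := by
    have : n ≤ 64 * L * Y.card := hq.trans (Nat.mul_le_mul_left _ hYc)
    exact_mod_cast this
  have h4 : (n : ℝ) ≤ n * (64 * L * β * ∑ i ∈ Y, w i) := by
    calc (n : ℝ) ≤ 64 * L * Y.card := h3
      _ ≤ 64 * L * (β * n * ∑ i ∈ Y, w i) := by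
        apply mul_le_mul_of_nonneg_left h2; positivity
      _ = _ := by ring
  have hn' : (0 : ℝ) < n := by exact_mod_cast hn
  have h5 : 1 ≤ 64 * L * β * ∑ i ∈ Y, w i := by
    have : (n : ℝ) * 1 ≤ n * (64 * L * β * ∑ i ∈ Y, w i) := by simpa using h4
    exact le_of_mul_le_mul_left this hn'
  push_cast
  exact hXs.trans h5

/-- the error -/
theorem error_le (k : ℕ) :
    ((k + 1 : ℕ) : ℝ) * 2 ^ (k + 1) * (1 / 2) ^ (3 * k + 1) ≤ (1 / 2) ^ k := by
  have h1 : ((k + 1 : ℕ) : ℝ) ≤ 2 ^ k := by
    have : k + 1 ≤ 2 ^ k := Nat.lt_two_pow_self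
    exact_mod_cast this
  have h2 : ((1 : ℝ) / 2) ^ (3 * k + 1) = (1 / 2) ^ k * ((1 / 2) ^ k * (1 / 2) ^ (k + 1)) := by
    rw [← pow_add, ← pow_add]; congr 1; ring
  have h3 : (2 : ℝ) ^ (k + 1) * (1 / 2) ^ (k + 1) = 1 := by
    rw [← mul_pow]; norm_num
  have h4 : (2 : ℝ) ^ k * (1 / 2) ^ k = 1 := by
    rw [← mul_pow]; norm_num
  calc ((k + 1 : ℕ) : ℝ) * 2 ^ (k + 1) * (1 / 2) ^ (3 * k + 1)
      = ((k + 1 : ℕ) : ℝ) * (1 / 2) ^ k * (1 / 2) ^ k * (2 ^ (k + 1) * (1 / 2) ^ (k + 1)) := by
        rw [h2]; ring
    _ = ((k + 1 : ℕ) : ℝ) * (1 / 2) ^ k * (1 / 2) ^ k := by rw [h3, mul_one]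
    _ ≤ 2 ^ k * (1 / 2) ^ k * (1 / 2) ^ k := by
        apply mul_le_mul_of_nonneg_right _ (by positivity)
        exact mul_le_mul_of_nonneg_right h1 (by positivity)
    _ = (1 / 2) ^ k := by rw [h4, one_mul]

/-- **Randomised pivot rules with unlimited memory are exponential on abstract objective functions.**
A rule sees the list of triples (visited vertex, its objective value, its set of improving directions),
the current one first; `p l i` is the probability with which it chooses the direction `i` when it sees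
`l`. Let `k, β ≥ 1`, and assume that

* `n ≥ 4608 β k ^ 2` and the probabilities of any two improving directions differ at most by the
  factor `β`, or
* `n ≥ 9216 β k ^ 3` and every improving direction has a probability of at least `1 / (β n)`.

Then for every start vertex `x₀` of the `n`-cube there is an injective objective function `f` with
exactly one local maximum on every face (so that increasing paths of at most `n` steps lead from every
vertex to the maximum) on which the rule, started at `x₀`, makes at least `2 ^ k` steps with a probability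
of at least `1 - 2 ^ (-k)`. -/
theorem result (n k β : ℕ) (hk : 1 ≤ k) (hβ : 1 ≤ β)
    (p : List ((Fin n → Bool) × ℕ × Finset (Fin n)) → Fin n → ℝ)
    (hp0 : ∀ l i, 0 ≤ p l i)
    (hp1 : ∀ x c S l, S.Nonempty → ∑ i ∈ S, p ((x, c, S) :: l) i = 1)
    (hp : (4608 * β * k ^ 2 ≤ n ∧
        ∀ x c S l, ∀ i ∈ S, ∀ j ∈ S, p ((x, c, S) :: l) i ≤ β * p ((x, c, S) :: l) j) ∨
      (9216 * β * k ^ 3 ≤ n ∧ ∀ x c S l, ∀ i ∈ S, 1 / (β * n) ≤ p ((x, c, S) :: l) i))
    (x₀ : Fin n → Bool) :
    ∃ f : (Fin n → Bool) → ℕ, Function.Injective f ∧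
      (∀ (U : Finset (Fin n)) (x : Fin n → Bool), ∃! y : Fin n → Bool,
        (∀ i, i ∉ U → y i = x i) ∧ ∀ i ∈ U, f (flip y i) < f y) ∧
      (∀ x : Fin n → Bool, ∃ (m : ℕ) (v : ℕ → (Fin n → Bool)), m ≤ n ∧ v 0 = x ∧
        (∀ t < m, ∃ i ∈ improving f (v t), v (t + 1) = flip (v t) i) ∧
        improving f (v m) = ∅) ∧
      1 - (1 / 2) ^ k ≤ prob f p (2 ^ k) x₀ [] := by
  suffices h : ∃ f : (Fin n → Bool) → ℕ, Function.Injective f ∧
      (∀ (U : Finset (Fin n)) (x : Fin n → Bool), ∃! y : Fin n → Bool,
        (∀ i, i ∉ U → y i = x i) ∧ ∀ i ∈ U, f (K4H94.SX.flip y i) < f y) ∧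
      1 - ((k + 1 : ℕ) : ℝ) * 2 ^ (k + 1) * (1 / 2) ^ (3 * k + 1) ≤
        K4H94.SX.prob f p (2 ^ (k + 1) - 1) x₀ [] by
    obtain ⟨f, h1, h2, h3⟩ := h
    have h2' : Pool.Agent.TH70.AR.AOF f := h2
    refine ⟨f, h1, h2, Pool.Agent.TH70.AR.short_path h2', ?_⟩
    rw [prob_eq]
    have h4 : 2 ^ k ≤ 2 ^ (k + 1) - 1 := by
      have : 1 ≤ 2 ^ k := Nat.one_le_two_pow
      rw [pow_succ]; omega
    have h5 := K4H94.SX.prob_anti' p f hp0 hp1 h4 x₀ []
    have h6 := error_le k
    linarith
  have hk2 : k * k ≥ k := Nat.le_mul_self k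
  rcases hp with ⟨hn, hp⟩ | ⟨hn, hp⟩
  · -- comparable probabilities
    have e1 : (1 + 64 * β) * (3 * k + 1) ≤ 8 * (9 * β * (3 * k + 1)) := by
      have : (1 + 64 * β) ≤ 72 * β := by omega
      calc (1 + 64 * β) * (3 * k + 1) ≤ 72 * β * (3 * k + 1) := Nat.mul_le_mul_right _ this
        _ = _ := by ring
    have e2 : 3 * k + 1 ≤ 9 * β * (3 * k + 1) := Nat.le_mul_of_pos_left _ (by omega)
    have e3 : 64 * (9 * β * (3 * k + 1)) * (k + 1) ≤ n := by
      refine le_trans ?_ hn
      have : (3 * k + 1) * (k + 1) ≤ 8 * k ^ 2 := by nlinarith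
      calc 64 * (9 * β * (3 * k + 1)) * (k + 1) = 576 * β * ((3 * k + 1) * (k + 1)) := by ring
        _ ≤ 576 * β * (8 * k ^ 2) := Nat.mul_le_mul_left _ this
        _ = _ := by ring
    exact K4H94.SX.rules_slow p x₀ (9 * β * (3 * k + 1)) (64 * β) (3 * k + 1) (k + 1) (by omega)
      e1 (by omega) e2 e3 hp0 hp1 fun x c S l X hX Y hY hXc hYc =>
        ratio_cmp _ S X Y _ β (hp x c S l) hX hY hXc hYc (hp0 _)
  · -- probabilities bounded from below
    have hL : 0 < 64 * (k + 1) := by omega
    have e0 : 9 * (k + 1) * β * (3 * k + 1) ≤ n / (64 * (k + 1)) := by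
      rw [Nat.le_div_iff_mul_le hL]
      refine le_trans ?_ hn
      have h1 : (k + 1) * (k + 1) ≤ 4 * (k * k) := by nlinarith
      have h2 : 3 * k + 1 ≤ 4 * k := by omega
      calc 9 * (k + 1) * β * (3 * k + 1) * (64 * (k + 1))
          = 576 * β * (((k + 1) * (k + 1)) * (3 * k + 1)) := by ring
        _ ≤ 576 * β * ((4 * (k * k)) * (4 * k)) := by
            apply Nat.mul_le_mul_left; exact Nat.mul_le_mul h1 h2
        _ = _ := by ring
    have e1 : (1 + 64 * (k + 1) * β) * (3 * k + 1) ≤ 8 * (n / (64 * (k + 1))) := by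
      have h1 : 1 ≤ (k + 1) * β := Nat.mul_pos (by omega) (by omega)
      have h2 : 1 + 64 * (k + 1) * β ≤ 72 * ((k + 1) * β) := by
        have : 64 * (k + 1) * β = 64 * ((k + 1) * β) := by ring
        omega
      calc (1 + 64 * (k + 1) * β) * (3 * k + 1)
          ≤ 72 * ((k + 1) * β) * (3 * k + 1) := Nat.mul_le_mul_right _ h2
        _ = 8 * (9 * (k + 1) * β * (3 * k + 1)) := by ring
        _ ≤ _ := Nat.mul_le_mul_left _ e0
    have e2 : 3 * k + 1 ≤ n / (64 * (k + 1)) := by
      refine le_trans ?_ e0
      apply Nat.le_mul_of_pos_left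
      positivity
    have e3 : 64 * (n / (64 * (k + 1))) * (k + 1) ≤ n := by
      calc 64 * (n / (64 * (k + 1))) * (k + 1) = n / (64 * (k + 1)) * (64 * (k + 1)) := by ring
        _ ≤ n := Nat.div_mul_le_self _ _
    have e4 : n ≤ 64 * (k + 1) * (n / (64 * (k + 1)) + 1) := by
      have := Nat.div_add_mod n (64 * (k + 1))
      have h2 := Nat.mod_lt n hL
      rw [mul_add]; omega
    have hn0 : 0 < n := by
      have : 0 < 9216 * β * k ^ 3 := by positivity
      omega
    have hβn : (0 : ℝ) < β * n := by
      have : 0 < β * n := Nat.mul_pos (by omega) hn0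
      exact_mod_cast this
    refine K4H94.SX.rules_slow p x₀ (n / (64 * (k + 1))) (64 * (k + 1) * β) (3 * k + 1) (k + 1) ?_
      e1 (by omega) e2 e3 hp0 hp1 fun x c S l X hX Y hY hXc hYc => ?_
    · exact Nat.mul_pos hL (by omega)
    · have hS : S.Nonempty := (card_pos.1 (lt_of_le_of_lt (Nat.zero_le _) hYc)).mono hY
      refine ratio_min _ S X Y _ β (k + 1) (fun i hi => ?_) hX hY hYc (hp0 _) (hp1 x c S l hS) e4
      have := hp x c S l i hi
      rwa [div_le_iff₀ hβn, mul_comm] at this

end Pool.Agent.Results.MP_4d246d_lc.RandomisedRulesWithMemory
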