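import Pool.Agent.K4H92.ZO.Blocks
import Pool.Agent.K4H92.ZO.Types
import Pool.Agent.K4H92.ZO.RuleOn
import Pool.Agent.K4H92.ZO.Cor0
import Pool.Agent.K4H92.ZO.Known0
set_option autoImplicit false

/-!
# A pivot rule without numbers which is polynomial on 0/1-polytopes and on deformed products of simplices

Linear programs `max c x`, `A x ≤ b`, `x ≥ 0` with `m` rows, `n` variables and real data. As in `NamesOnly`,
a rule is told only names: at a vertex, which constraints are tight there, and for each improving edge which
constraints are tight on the whole edge. It is told no coefficients, coordinates, slopes, lengths, costs or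
other numbers, and nothing about vertices which it has not visited. It remembers what it was told on its way
and answers with the name of the edge to follow.

Result. There is ONE deterministic rule of this kind which makes POLYNOMIALLY many pivots, all of them
improving, on all linear programs over 0/1-polytopes, and more generally on all linear programs with blocks
`B 1, …, B p` of constraints such that at every vertex exactly one constraint of each block is not tight and
this determines the vertex. The programs may be degenerate in any way, with any objective. Examples: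

* the 0/1-polytopes `A x ≤ b`, `0 ≤ x ≤ 1` of combinatorial optimisation, with the blocks
  `{x j ≥ 0, x j ≤ 1}`, and all their deformations in which the faces `x j = 0` and `x j = 1` remain
  opposite faces;
* all programs over combinatorial cubes (Klee-Minty, Goldfarb, Jeroslow and the other examples on which
  the classical rules are exponential), with the pairs of opposite facets as blocks, and all programs over
  deformed products of simplices, such as those of discounted Markov decision processes.

(1) For 0/1-polytopes the rule depends on `m`, `n` and on the names of the rows `x j ≤ 1` only, and makes at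
most `n (n + 2) (m + n + 3) ^ 4` pivots for all `A`, `b`, `c`.
(2) For blocks of total size `K` it depends on `m`, `n` and the blocks only, and makes at most
`K (K + 2) (m + n + 3) ^ 4` pivots for all `A`, `b`, `c`.
(3) If the rule may depend on the polyhedron, so that only the objective is hidden, then
`K (K + 2) (n (2 K + 3) + 1)` pivots are enough, whatever the number of rows is: for every 0/1-polytope of
dimension `n`, for example a travelling salesman polytope, `O(n ^ 4)` pivots, although the rule is never told
the costs or the value of a vertex, but only which edges improve.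

In contrast, on abstract cubes (objective functions with one local maximum on each face) every deterministic
rule which is told the same and also the objective values makes `2 ^ k` steps for
`n > k (k + 1) (3 k + 28)` (starting result `AllDeterministicRules`).

Proof. What the rule is told depends only on the combinatorial type of the program, and there are at most
`2 ^ ((m + n + 3) ^ 4)` types (Warren); so let `X` be the finite set of the types which agree with everything
told so far. Let `u` be the present vertex, and for a set `J` of coordinates let `G J` be the face of the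
vertices which agree with `u` off `J`. Call `J` settled if there is a vertex at which all but a proportion
`1 / (K + 2)` of the members of `X` show the same view, and this view says that the vertex is optimal in
`G J`. If the set of all coordinates is settled, walk to that vertex. If not, take a minimal `J` which is not
settled. As the sets `J - i` are settled by vertices which are not optimal in `G J`, for most members of `X`
no optimal vertex of `G J` agrees with `u` in a coordinate of `J`; so the only optimal vertex of `G J` is the
one opposite to `u`, and as `J` is not settled, the view there is not known. Walk to it: in the face spanned by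
the present vertex and a better one there is an improving edge, and it leads closer to the target, since a
vertex has only two possibilities in each coordinate. After at most `K` steps either the walk is stuck, which
excludes most of `X`, or the target is reached and its view excludes a proportion `1 / (K + 2)` of `X`.
-/

namespace Pool.Agent.Results.MP_4d246d_lc.ZeroOnePolytopes

open Finset

/-- the polyhedron `A x ≤ b`, `x ≥ 0` -/
def polyhedron {m n : ℕ} (A : Fin m → Fin n → ℝ) (b : Fin m → ℝ) : Set (Fin n → ℝ) :=
  {x | (∀ i, ∑ j, A i j * x j ≤ b i) ∧ ∀ j, 0 ≤ x j}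

/-- the objective function `c x` -/
def val {n : ℕ} (c x : Fin n → ℝ) : ℝ := ∑ j, c j * x j

/-- `x` and `y` are joined by an edge of `P` on which the objective function increases -/
def ImprovingEdge {n : ℕ} (P : Set (Fin n → ℝ)) (c x y : Fin n → ℝ) : Prop :=
  IsExposed ℝ P (segment ℝ x y) ∧ val c x < val c y

/-- `P` has an unbounded edge at `x`, in the direction `d`, on which the objective function
increases -/
def UnboundedEdge {n : ℕ} (P : Set (Fin n → ℝ)) (c x d : Fin n → ℝ) : Prop :=
  IsExposed ℝ P {z | ∃ t : ℝ, 0 ≤ t ∧ z = x + t • d} ∧ 0 < val c d

/-- the names of the constraints: `inl i` for the row `i` of `A x ≤ b`, and `inr j` for `x j ≥ 0` -/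
abbrev Name (m n : ℕ) : Type := Fin m ⊕ Fin n

open Classical in
/-- the names of the constraints which hold with equality at `x` -/
noncomputable def tightAt {m n : ℕ} (A : Fin m → Fin n → ℝ) (b : Fin m → ℝ) (x : Fin n → ℝ) :
    Finset (Name m n) :=
  univ.filter (Sum.elim (fun i => ∑ j, A i j * x j = b i) fun j => x j = 0)

/-- what is told at the vertex `x`: the names of the tight constraints, and the names of the improving
edges. The name of an edge is the set of the constraints which are tight on the whole edge. -/
noncomputable def view {m n : ℕ} (A : Fin m → Fin n → ℝ) (b : Fin m → ℝ) (c x : Fin n → ℝ) :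
    Finset (Name m n) × Set (Finset (Name m n)) :=
  (tightAt A b x, {Z | (∃ y, ImprovingEdge (polyhedron A b) c x y ∧
    Z = tightAt A b x ∩ tightAt A b y) ∨ ∃ d, UnboundedEdge (polyhedron A b) c x d ∧
      Z = tightAt A b x ∩ tightAt A b (x + d)})

/-- everything told at `x 0, …, x k` -/
noncomputable def history {m n : ℕ} (A : Fin m → Fin n → ℝ) (b : Fin m → ℝ) (c : Fin n → ℝ)
    (x : ℕ → Fin n → ℝ) (k : ℕ) : List (Finset (Name m n) × Set (Finset (Name m n))) :=
  (List.range (k + 1)).map fun j => view A b c (x j)

/-- From every vertex `v`, the rule `ρ` walks through vertices `v = x 0, …, x N'` along `N' ≤ N` improving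
edges, which it names, to an optimal vertex. It is told only the names in `history`. -/
def Solves {m n : ℕ} (ρ : List (Finset (Name m n) × Set (Finset (Name m n))) → Finset (Name m n))
    (A : Fin m → Fin n → ℝ) (b : Fin m → ℝ) (c : Fin n → ℝ) (N : ℕ) : Prop :=
  ∀ v ∈ (polyhedron A b).extremePoints ℝ,
    ∃ N' ≤ N, ∃ x : ℕ → Fin n → ℝ, x 0 = v ∧
      (∀ k ≤ N', x k ∈ (polyhedron A b).extremePoints ℝ) ∧
      (∀ k < N', ImprovingEdge (polyhedron A b) c (x k) (x (k + 1)) ∧
        tightAt A b (x k) ∩ tightAt A b (x (k + 1)) = ρ (history A b c x k)) ∧
      ∀ y ∈ polyhedron A b, val c y ≤ val c (x N')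

/-- 0/1-polytopes: the row `r j` is `x j ≤ 1`, and all vertices have coordinates `0` and `1`; the other
rows are arbitrary -/
def ZeroOne {m n : ℕ} (r : Fin n → Fin m) (A : Fin m → Fin n → ℝ) (b : Fin m → ℝ) : Prop :=
  (∀ j l, A (r j) l = if l = j then 1 else 0) ∧ (∀ j, b (r j) = 1) ∧
    ∀ x ∈ (polyhedron A b).extremePoints ℝ, ∀ j, x j = 0 ∨ x j = 1

/-- at every vertex exactly one constraint of each block `B i` is not tight, and this determines the
vertex -/
def Blocked {m n p : ℕ} (B : Fin p → Finset (Name m n)) (A : Fin m → Fin n → ℝ) (b : Fin m → ℝ) :
    Prop :=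
  (∀ x ∈ (polyhedron A b).extremePoints ℝ, ∀ i, ∃! ν, ν ∈ B i ∧ ν ∉ tightAt A b x) ∧
  ∀ x ∈ (polyhedron A b).extremePoints ℝ, ∀ y ∈ (polyhedron A b).extremePoints ℝ,
    (∀ i, ∀ ν ∈ B i, ν ∈ tightAt A b x ↔ ν ∈ tightAt A b y) → x = y

/-- **One deterministic pivot rule which sees no numbers makes polynomially many pivots on all
0/1-polytopes, and on all programs with blocks (deformed cubes and products of simplices).** In (1) and (2)
all the data `A`, `b`, `c` are hidden, in (3) only the objective `c`. -/
theorem result (m n : ℕ) :
    (∀ r : Fin n → Fin m, ∃ ρ, ∀ (A : Fin m → Fin n → ℝ) (b : Fin m → ℝ) (c : Fin n → ℝ),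
      ZeroOne r A b → Solves ρ A b c (n * ((n + 2) * (m + n + 3) ^ 4))) ∧
    (∀ (p : ℕ) (B : Fin p → Finset (Name m n)), ∃ ρ,
      ∀ (A : Fin m → Fin n → ℝ) (b : Fin m → ℝ) (c : Fin n → ℝ), Blocked B A b →
        BddAbove (val c '' polyhedron A b) →
        Solves ρ A b c ((∑ i, (B i).card) * ((∑ i, (B i).card + 2) * (m + n + 3) ^ 4))) ∧
    ∀ (p : ℕ) (B : Fin p → Finset (Name m n)) (A : Fin m → Fin n → ℝ) (b : Fin m → ℝ),
      Blocked B A b → ∃ ρ, ∀ c : Fin n → ℝ, BddAbove (val c '' polyhedron A b) →
        Solves ρ A b c ((∑ i, (B i).card) * ((∑ i, (B i).card + 2) *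
          (n * (2 * ∑ i, (B i).card + 3) + 1))) := by
  have hmain := K4H92.ZO.main K4H92.ZO.types_of K4H92.ZO.rule_on
  refine ⟨fun r => ?_, fun p B => ?_, fun p B A b hB => ?_⟩
  · obtain ⟨ρ, hρ⟩ := K4H92.ZO.zeroOne_of_main' hmain m n r
    exact ⟨ρ, fun A b c h => hρ A b c h⟩
  · obtain ⟨ρ, hρ⟩ := hmain m n (Σ i : Fin p, B i) (K4H92.ZO.sw B)
    rw [K4H92.ZO.card_sw] at hρ
    exact ⟨ρ, fun A b c h hb => hρ A b c ⟨K4H92.ZO.switched_of_blocked h, hb⟩⟩
  · obtain ⟨ρ, hρ⟩ := K4H92.ZO.main_known K4H92.ZO.types_known' K4H92.ZO.rule_on m n
      (Σ i : Fin p, B i) (K4H92.ZO.sw B) A b (K4H92.ZO.switched_of_blocked hB)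
    rw [K4H92.ZO.card_sw] at hρ
    exact ⟨ρ, fun c hb => hρ A b c ⟨rfl, rfl, hb⟩⟩

end Pool.Agent.Results.MP_4d246d_lc.ZeroOnePolytopes
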